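import Pool.Agent.Results.MP_295d38_ag.QuadraticLinePowers
import Pool.Agent.U100.DM.Null
import Pool.Agent.U100.ZP.Parts

/-!
# Dynamical Mordell-Lang for endomorphisms of powers of the projective line, along random orbits of
thin groups, metric sequences and equidistributed sequences of coefficient vectors
-/

set_option autoImplicit false

namespace Pool.Agent.Results.MP_295d38_ag.MapsAlongSequences

open MvPolynomial MeasureTheory Filter Topology
open Pool.Agent.N24.RW (Walk orb words)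
open Pool.Agent.N24.KM (Koksma)
open Pool.Agent.N918.EQ (Equi)

/-- Indices of the coefficients of `k` pairs of binary forms, those of the `j`-th pair being of
degree `d j`. -/
abbrev Idx (k : ℕ) (d : Fin k → ℕ) : Type := Σ j : Fin k, Fin 2 × Fin (d j + 1)

/-- The self-map `(P_i) ↦ (f_(τ i) (P_(σ i)))` of `(ℙ^1)^N` in homogeneous coordinates, `f_j`
(`j < k`) being the rational function
`(x : y) ↦ (∑ v_{j,0,e} x^e y^(d j - e) : ∑ v_{j,1,e} x^e y^(d j - e))`. -/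
noncomputable def smap {k N : ℕ} {d : Fin k → ℕ} (τ : Fin N → Fin k) (σ : Fin N → Fin N)
    (v : Idx k d → ℤ) (x : Fin N × Fin 2 → ℂ) : Fin N × Fin 2 → ℂ :=
  fun q => ∑ e : Fin (d (τ q.1) + 1), (v ⟨τ q.1, (q.2, e)⟩ : ℂ) *
    (x (σ q.1, 0) ^ (e : ℕ) * x (σ q.1, 1) ^ (d (τ q.1) - (e : ℕ)))

/-- A multihomogeneous polynomial. -/
def MultiHom {N : ℕ} (g : MvPolynomial (Fin N × Fin 2) ℂ) : Prop :=
  ∃ e : Fin N → ℕ, ∀ (t : Fin N → ℂ) (x : Fin N × Fin 2 → ℂ),
    eval (fun q => t q.1 * x q) g = (∏ i, t i ^ e i) * eval x g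

/-- The coordinates `α` are homogeneous coordinates of a point of `(ℙ^1)^N`. -/
def IsPoint {N : ℕ} (α : Fin N × Fin 2 → ℂ) : Prop := ∀ i, ¬ (α (i, 0) = 0 ∧ α (i, 1) = 0)

/-- The Dynamical Mordell-Lang property of the self-map `F` of `(ℙ^1)^N` (given in homogeneous
coordinates) for the points over `L`: for every point over `L` and every closed `V ⊆ (ℙ^1)^N` over
`ℂ` (the common zeros of a set `S` of multihomogeneous polynomials) the return set is a finite union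
of arithmetic progressions (and of points, the progressions of difference zero). -/
def DML {N : ℕ} (L : Subfield ℂ) (F : (Fin N × Fin 2 → ℂ) → (Fin N × Fin 2 → ℂ)) : Prop :=
  ∀ α : Fin N × Fin 2 → ℂ, (∀ q, α q ∈ L) → IsPoint α →
    ∀ S : Set (MvPolynomial (Fin N × Fin 2) ℂ), (∀ g ∈ S, MultiHom g) →
      ∃ T : Finset (ℕ × ℕ), {n : ℕ | ∀ g ∈ S, eval (F^[n] α) g = 0} =
        {n : ℕ | ∃ q ∈ T, ∃ m : ℕ, n = q.1 * m + q.2}

/-- `F` maps points to points. -/
def Regular {N : ℕ} (F : (Fin N × Fin 2 → ℂ) → (Fin N × Fin 2 → ℂ)) : Prop :=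
  ∀ α : Fin N × Fin 2 → ℂ, IsPoint α → IsPoint (F α)

/-- All the maps `(P_i) ↦ (f_(τ i) (P_(σ i)))`, for all `N`, `τ` and `σ`, are endomorphisms of
`(ℙ^1)^N` with the Dynamical Mordell-Lang property for the points over `L`. -/
def AllDML {k : ℕ} {d : Fin k → ℕ} (L : Subfield ℂ) (v : Idx k d → ℤ) : Prop :=
  ∀ (N : ℕ) (τ : Fin N → Fin k) (σ : Fin N → Fin N), Regular (smap τ σ v) ∧ DML L (smap τ σ v)

/-- `E` has density zero relative to the sets `S n` of times. -/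
def NullIn (S : ℕ → Finset ℕ) (E : Set ℕ) : Prop :=
  ∀ ε : ℝ, 0 < ε → ∃ n₀ : ℕ, ∀ n : ℕ, n₀ ≤ n →
    (({t : ℕ | t ∈ S n ∧ t ∈ E}.ncard : ℕ) : ℝ) ≤ ε * (S n).card

/-- There is ONE set `E` of times of density zero such that for all `k ≥ 1`, all degrees
`d_1, ..., d_k ≥ 1` and all choices of different coordinates of the sequence `x` of integral vectors as
the coefficients of `k` rational functions `f_1, ..., f_k` of these degrees:
* for every finitely generated field `L ⊂ ℂ`, all the maps `(P_i) ↦ (f_(τ i) (P_(σ i)))` have the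
  Dynamical Mordell-Lang property over `L`, at all but finitely many times outside `E`;
* if all `d_j` are `2`, they have it over `ℂ`, at all but finitely many times outside `E`. -/
def OneNullSet {r : ℕ} (S : ℕ → Finset ℕ) (x : ℕ → Fin r → ℤ) : Prop :=
  ∃ E : Set ℕ, NullIn S E ∧ ∀ k : ℕ, 1 ≤ k → ∀ d : Fin k → ℕ, (∀ j, 1 ≤ d j) →
    ∀ l : Idx k d → Fin r, Function.Injective l →
      (∀ s : Finset ℂ,
        {t : ℕ | t ∉ E ∧ ¬ AllDML (Subfield.closure (s : Set ℂ)) (fun q => x t (l q))}.Finite) ∧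
      ((∀ j, d j = 2) → {t : ℕ | t ∉ E ∧ ¬ AllDML (⊤ : Subfield ℂ) (fun q => x t (l q))}.Finite)

/-! ### The local criteria -/

open Pool.Agent.U100.DM

theorem regular_of {k : ℕ} {d : Fin k → ℕ} (hd : ∀ j, 1 ≤ d j) (v : Idx k d → ℤ)
    (hv : v ∉ BadR d) (N : ℕ) (τ : Fin N → Fin k) (σ : Fin N → Fin N) :
    Regular (smap τ σ v) := by
  intro α hα i hi
  apply hα (σ i)
  refine no_common (hd (τ i)) (fun e => ((v ⟨τ i, e⟩ : ℤ) : ℂ)) ?_ _ _ ?_
  · rw [← eval_resP]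
    intro h0
    exact hv ⟨τ i, by exact_mod_cast h0⟩
  · intro j
    fin_cases j
    · exact hi.1
    · exact hi.2

theorem dml_of (s : Finset ℂ) : ∃ P : Pr, ∀ {k : ℕ} {d : Fin k → ℕ}, (∀ j, 1 ≤ d j) →
    ∀ v : Idx k d → ℤ, v ∉ BadN d P.C → ∀ (N : ℕ) (τ : Fin N → Fin k) (σ : Fin N → Fin N),
      DML (Subfield.closure (s : Set ℂ)) (smap τ σ v) := by
  obtain ⟨K, i1, i2, S, hloc⟩ := Pool.Agent.H927R2.RD.exists_local s
  refine ⟨⟨_, K, i1, i2, S, rfl⟩, fun {k d} hd v hv N τ σ => ?_⟩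
  unfold BadN at hv
  rw [Set.mem_ofPred_eq] at hv
  push Not at hv
  obtain ⟨p, hp, hpd, hpP, hpp, hg⟩ := hv
  obtain ⟨θ, hθ⟩ := hloc p hpP.2 hpP.1
  have h1 := EndomorphismsOfLinePowers.dml_of_perm (d := fun i => d (τ i)) _
    (fun q => v ⟨τ q.1, q.2⟩) (EndomorphismsOfLinePowers.quality (p := p) (fun i => hd (τ i))
      (fun i h => by
        rw [ZMod.natCast_eq_zero_iff] at h
        have h1 := Nat.le_of_dvd (by have := hd (τ i); omega) h
        have h2 : d (τ i) ≤ ∑ j, d j := Finset.single_le_sum (f := d)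
          (fun _ _ => Nat.zero_le _) (Finset.mem_univ (τ i))
        have := hd (τ i)
        omega) _ θ hθ _ (fun i => hg (τ i))) σ
  intro α hα hα0 S hS
  exact h1 α hα hα0 S hS

theorem dml_quad {k : ℕ} (v : Idx k (fun _ => 2) → ℤ)
    (hv : (fun q : Fin k × Fin 2 × Fin (2 + 1) => v ⟨q.1, q.2⟩) ∉ BadQ k) :
    AllDML (⊤ : Subfield ℂ) v := by
  intro N τ σ
  unfold BadQ at hv
  rw [Set.mem_ofPred_eq, not_not] at hv
  obtain ⟨h1, h2⟩ := QuadraticLinePowers.main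
    (fun q : Fin k × Fin 2 × Fin (2 + 1) => v ⟨q.1, q.2⟩) hv τ σ
  exact ⟨fun α hα => h1 α hα, fun α _ hα0 S hS => h2 α hα0 S hS⟩

/-! ### Countably many pronull sets -/

/-- the indices -/
abbrev Ind (r : ℕ) : Type :=
  (Σ k : ℕ, Σ d : Fin k → ℕ, (Idx k d → Fin r) × Option Pr) ⊕
    (Σ k : ℕ, (Fin k × Fin 2 × Fin (2 + 1) → Fin r))

/-- the sets -/
def BB {r : ℕ} : Ind r → Set (Fin r → ℤ)
  | Sum.inl ⟨_, d, l, none⟩ =>
    {z | Function.Injective l ∧ (fun q => z (l q)) ∈ BadR d}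
  | Sum.inl ⟨_, d, l, some P⟩ =>
    {z | (∀ j, 1 ≤ d j) ∧ Function.Injective l ∧ (fun q => z (l q)) ∈ BadN d P.C}
  | Sum.inr ⟨k, l⟩ => {z | 1 ≤ k ∧ Function.Injective l ∧ (fun q => z (l q)) ∈ BadQ k}

theorem bb_null {r : ℕ} (y : Ind r) : Pool.Agent.N24.RW.ProNull (BB y) := by
  have hmono := (Pool.Agent.N24.RW.clo (Fin r)).1
  rcases y with (⟨k, d, l, (_ | P)⟩ | ⟨k, l⟩)
  · by_cases hl : Function.Injective l
    · exact hmono _ _ (fun z hz => hz.2) (Pool.Agent.U100.ZP.proNull_comp (badR_null d) hl)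
    · exact hmono _ _ (fun z hz => (hl hz.1).elim) Pool.Agent.U100.ZP.proNull_empty
  · by_cases hl : (∀ j, 1 ≤ d j) ∧ Function.Injective l
    · exact hmono _ _ (fun z hz => hz.2.2) (Pool.Agent.U100.ZP.proNull_comp (badN_null hl.1 P) hl.2)
    · exact hmono _ _ (fun z hz => (hl ⟨hz.1, hz.2.1⟩).elim) Pool.Agent.U100.ZP.proNull_empty
  · by_cases hl : 1 ≤ k ∧ Function.Injective l
    · exact hmono _ _ (fun z hz => hz.2.2) (Pool.Agent.U100.ZP.proNull_comp (badQ_null hl.1) hl.2)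
    · exact hmono _ _ (fun z hz => (hl ⟨hz.1, hz.2.1⟩).elim) Pool.Agent.U100.ZP.proNull_empty

theorem oneNullSet_of {r : ℕ} (S : ℕ → Finset ℕ) (x : ℕ → Fin r → ℤ)
    (hx : ∀ y : Ind r, Pool.Agent.N918.EQ.RareIn S x (BB y)) : OneNullSet S x := by
  obtain ⟨E, hE, hfin⟩ := Pool.Agent.U100.ZP.oneSet S x BB hx
  refine ⟨E, hE, fun k hk d hd l hl => ⟨fun s => ?_, fun h2 => ?_⟩⟩
  · obtain ⟨P, hP⟩ := dml_of s
    refine ((hfin (Sum.inl ⟨k, d, l, none⟩)).union (hfin (Sum.inl ⟨k, d, l, some P⟩))).subset ?_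
    rintro t ⟨ht, hbad⟩
    by_contra hcon
    rw [Set.mem_union, not_or] at hcon
    obtain ⟨c1, c2⟩ := hcon
    apply hbad
    intro N τ σ
    constructor
    · exact regular_of hd _ (fun h => c1 ⟨ht, hl, h⟩) N τ σ
    · exact hP hd _ (fun h => c2 ⟨ht, hd, hl, h⟩) N τ σ
  · obtain rfl : d = fun _ => 2 := funext h2
    refine (hfin (Sum.inr ⟨k, fun q => l ⟨q.1, q.2⟩⟩)).subset ?_
    rintro t ⟨ht, hbad⟩
    refine ⟨ht, ?_⟩
    by_contra hcon
    apply hbad
    refine dml_quad _ fun h => hcon ⟨hk, ?_, h⟩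
    intro q q' hq
    have h3 := hl hq
    have h4 : q.1 = q'.1 := congrArg Sigma.fst h3
    obtain ⟨a, b⟩ := q
    obtain ⟨a', b'⟩ := q'
    simp only at h4
    subst h4
    have h5 := eq_of_heq (Sigma.mk.inj h3).2
    simp only at h5
    rw [h5]

/-- **Dynamical Mordell-Lang for endomorphisms of powers of the projective line whose coefficients run
through random orbits, metric sequences or equidistributed sequences.** -/
theorem result :
    -- (1) random orbits of thin groups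
    (∀ r : ℕ, 2 ≤ r → ∀ (W : Walk (Fin r)) (v : Fin r → ℤ), v ≠ 0 →
      ∀ᵐ w ∂(words W.m), OneNullSet Finset.range (orb W v w)) ∧
    -- (2) metric sequences
    (∀ r : ℕ,
      (∀ (a b : Fin r → ℝ) (f : Fin r → ℕ → ℝ → ℝ), (∀ i, a i < b i) →
        (∀ i, Koksma (a i) (b i) (f i)) →
        ∀ᵐ α : Fin r → ℝ, (∀ i, α i ∈ Set.Icc (a i) (b i)) →
          OneNullSet Finset.range (fun t i => ⌊f i t (α i)⌋)) ∧
      (∀ (a : Fin r → ℕ → ℝ) (δ : ℝ), 0 < δ → (∀ i s t, s ≠ t → δ ≤ |a i s - a i t|) →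
        ∀ᵐ α : Fin r → ℝ, OneNullSet Finset.range (fun t i => ⌊a i t * α i⌋)) ∧
      (∀ (q : ℕ → ℕ) (ξ : Fin r → ℝ), Function.Injective q → (∀ i, ξ i ≠ 0) →
        ∀ᵐ α : Fin r → ℝ, (∀ i, 1 < α i) →
          OneNullSet Finset.range (fun t i => ⌊ξ i * α i ^ q t⌋))) ∧
    -- (3) equidistributed sequences, with arbitrary sets of times
    (∀ (r : ℕ) (S : ℕ → Finset ℕ) (x : ℕ → Fin r → ℤ), Equi S x → OneNullSet S x) :=
  ⟨fun _ hr => (Pool.Agent.U100.ZP.all_parts BB bb_null _ oneNullSet_of).1 hr,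
    fun r => (Pool.Agent.U100.ZP.all_parts BB bb_null _ (oneNullSet_of (r := r))).2.1,
    fun r => (Pool.Agent.U100.ZP.all_parts BB bb_null _ (oneNullSet_of (r := r))).2.2⟩

end Pool.Agent.Results.MP_295d38_ag.MapsAlongSequences
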